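import Pool.Agent.Y164.NZ.StmT
import Pool.Agent.Y713.TG.Rig

/-!
# Project NZ, second part: places of `k(t)` and of `k'(t)` (job NZT-PL)
-/

set_option autoImplicit false
set_option linter.all false

open Polynomial IsDedekindDomain

namespace Pool.Agent.Y569.NZ

open Pool.Agent.Y164.NZ
open Pool.Agent.Y713.SE
open Pool.Agent.TH115.GD (pl val_poly)

theorem val_irr {k K : Type} [Field k] [Field K] [Algebra k[X] K] [IsFractionRing k[X] K]
    (v : HeightOneSpectrum k[X]) {π : k[X]} (hv : v.asIdeal = Ideal.span {π})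
    (hπ : Irreducible π) {p : k[X]} (hp : p ≠ 0) :
    v.valuation K (algebraMap k[X] K p) = WithZero.exp (-(multiplicity π p : ℤ)) := by
  have hfin : FiniteMultiplicity π p := FiniteMultiplicity.of_not_isUnit hπ.not_isUnit hp
  have h0 : v.valuation K (algebraMap k[X] K p) = v.intValuation p :=
    v.valuation_of_algebraMap p
  rw [h0]
  have key : ∀ n : ℕ, v.intValuation p ≤ WithZero.exp (-(n : ℤ)) ↔ n ≤ multiplicity π p := by
    intro n
    rw [v.intValuation_le_pow_iff_dvd, ← hfin.pow_dvd_iff_le_multiplicity, hv,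
      Ideal.span_singleton_pow, Ideal.dvd_span_singleton, Ideal.mem_span_singleton]
  apply le_antisymm ((key _).2 le_rfl)
  have h1 : ¬ v.intValuation p ≤ WithZero.exp (-((multiplicity π p + 1 : ℕ) : ℤ)) := by
    rw [key]; omega
  rw [v.intValuation_if_neg hp] at h1 ⊢
  rw [WithZero.exp_le_exp] at h1 ⊢
  push_cast at h1 ⊢
  omega

theorem t : S_PL := by
  intro k k' K F _ _ _ _ _ _ _ _ _ _ _ _ hKF v
  obtain ⟨π, hπ⟩ : ∃ π : k[X], v.asIdeal = Ideal.span {π} := by
    obtain ⟨π, hπ⟩ := (IsPrincipalIdealRing.principal v.asIdeal).principal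
    exact ⟨π, hπ⟩
  have hirr : Irreducible π := by
    have h1 : (Ideal.span {π}).IsPrime := hπ ▸ v.isPrime
    have h2 : π ≠ 0 := by
      rintro rfl
      apply v.ne_bot
      rw [hπ]
      simp
    exact ((Ideal.span_singleton_prime h2).1 h1).irreducible
  have hsep : π.Separable := hirr.separable
  have hsc : IsSepClosed k' := IsSepClosure.sep_closed k
  obtain ⟨θ, hθ⟩ : ∃ θ : k', aeval θ π = 0 := by
    apply IsSepClosed.exists_aeval_eq_zero
    · exact (degree_pos_of_irreducible hirr).ne'
    · exact hsep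
  refine ⟨θ, fun p => ?_, ?_⟩
  · rw [hπ, Ideal.mem_span_singleton]
    exact dvd_iff_root hirr hθ p
  · have hpol : ∀ p : k[X], (pl θ).valuation F (algebraMap K F (algebraMap k[X] K p)) =
        v.valuation K (algebraMap k[X] K p) := by
      intro p
      by_cases hp : p = 0
      · subst hp
        simp
      · rw [hKF p, val_poly θ ((Polynomial.map_ne_zero_iff (algebraMap k k').injective).2 hp),
          rootMult_eq hirr hsep hθ hp, val_irr v hπ hirr hp]
    intro x
    obtain ⟨a, b, hb, rfl⟩ := IsFractionRing.div_surjective (A := k[X]) x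
    rw [map_div₀, map_div₀, map_div₀, hpol, hpol]

end Pool.Agent.Y569.NZ
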